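import Pool.Agent.W957.MF.Stm

set_option autoImplicit false

/-! Project MF, assembly: STR and MAIN. -/

namespace Pool.Agent.W585.MF

open Pool.Agent.W957.MF Finset

lemma pa_mono {z : Conf} {S : Finset ℕ} {t T : ℕ} (h : t ≤ T) (H : HasPA z S T) : HasPA z S t := by
  obtain ⟨a, s1, s2, u, hu, h1, h2, h3⟩ := H
  exact ⟨a, s1, s2, u, fun i hi => hu i (by omega),
    fun i j hi hij hj => h1 i j hi hij (by omega),
    fun i j hi hij hj => h2 i j hi hij (by omega),
    fun i j hi hi2 hj hj2 => h3 i j hi (by omega) hj (by omega)⟩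

lemma w1_mono {z : Conf} {S : Finset ℕ} {t T : ℕ} (h : t ≤ T) (H : HasW1 z S T) : HasW1 z S t := by
  obtain ⟨a, s1, s2, u, hu, h1, h2, h3, h4, h5⟩ := H
  exact ⟨a, s1, s2, u, fun i hi => hu i (by omega),
    fun i j hij hj => h1 i j hij (by omega),
    fun i j hi hij hj => h2 i j hi hij (by omega),
    fun i j hi hij hj => h3 i j hi hij (by omega),
    fun i hi hi2 => h4 i hi (by omega),
    fun i hi hi2 => h5 i hi (by omega)⟩

lemma tip_mono {z : Conf} {S : Finset ℕ} {t T : ℕ} (h : t ≤ T) (H : Tip z S T) : Tip z S t := by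
  obtain ⟨u, hu, h1, h2, h3, h4⟩ := H
  exact ⟨u, fun i hi => hu i (by omega),
    fun i j hij hj => h1 i j hij (by omega),
    fun i j hij hj => h2 i j hij (by omega),
    fun i j hij hj => h3 i j hij (by omega),
    fun i j hi hj => h4 i j (by omega) (by omega)⟩

theorem t_STR (h1 : S_AFP) (h2 : S_ES) (h3 : S_TIP) : S_STR := by
  intro k t
  obtain ⟨Mtip, htip⟩ := h3 k t
  obtain ⟨Mes, hes⟩ := h2 (max t Mtip)
  obtain ⟨M, hM⟩ := h1 k Mes
  refine ⟨M, fun z S hG hS hc => ?_⟩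
  rcases hM z S hG hS hc with h | ⟨a, s1, s2, h⟩
  · exact Or.inl h
  rcases hes z S hG a s1 s2 h with h | h | ⟨a, s1, s2, h⟩
  · exact Or.inr (Or.inl (pa_mono (le_max_left _ _) h))
  · exact Or.inr (Or.inr (Or.inl (w1_mono (le_max_left _ _) h)))
  rcases htip z S hG hS a s1 s2 (tip_mono (le_max_right _ _) h) with h | h | h
  · exact Or.inl h
  · exact Or.inr (Or.inr (Or.inl h))
  · exact Or.inr (Or.inr (Or.inr h))

/-- the configuration of a permutation -/
def zp {n : ℕ} (π : Equiv.Perm (Fin n)) : Conf := fun b i =>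
  if b then (i : ℤ) else if h : i < n then ((π ⟨i, h⟩ : ℕ) : ℤ) else 0

lemma zp_true {n : ℕ} (π : Equiv.Perm (Fin n)) (i : ℕ) : zp π true i = (i : ℤ) := rfl

lemma zp_false {n : ℕ} (π : Equiv.Perm (Fin n)) {i : ℕ} (h : i < n) :
    zp π false i = ((π ⟨i, h⟩ : ℕ) : ℤ) := by
  unfold zp
  simp [h]

lemma zp_gp {n : ℕ} (π : Equiv.Perm (Fin n)) : GP (zp π) (range n) := by
  rintro (_ | _)
  · intro i hi j hj hij
    have hi' : i < n := by simpa using hi
    have hj' : j < n := by simpa using hj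
    rw [zp_false π hi', zp_false π hj'] at hij
    have h1 : (π ⟨i, hi'⟩ : ℕ) = π ⟨j, hj'⟩ := by exact_mod_cast hij
    have h2 := π.injective (Fin.ext h1)
    simpa using congrArg Fin.val h2
  · intro i _ j _ hij
    rw [zp_true, zp_true] at hij
    exact_mod_cast hij

lemma zp_simple {n : ℕ} (π : Equiv.Perm (Fin n)) (h : IsSimple π) : SimpleSet (zp π) (range n) := by
  intro Y hY hc hne
  set Y' : Finset (Fin n) := Finset.univ.filter (fun i : Fin n => (i : ℕ) ∈ Y) with hY'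
  have hm : ∀ i : Fin n, i ∈ Y' ↔ (i : ℕ) ∈ Y := by
    intro i
    simp [hY']
  have himg : Y'.image (fun i : Fin n => (i : ℕ)) = Y := by
    ext j
    rw [mem_image]
    constructor
    · rintro ⟨i, hi, rfl⟩
      exact (hm i).1 hi
    · intro hj
      have hj' : j < n := by simpa using hY hj
      exact ⟨⟨j, hj'⟩, (hm _).2 hj, rfl⟩
  have hcard : Y'.card = Y.card := by
    rw [← himg, Finset.card_image_of_injective]
    exact Fin.val_injective
  have hnu : Y' ≠ Finset.univ := by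
    intro hu
    apply hne
    apply Finset.Subset.antisymm hY
    intro j hj
    have hj' : j < n := by simpa using hj
    have : (⟨j, hj'⟩ : Fin n) ∈ Y' := by
      rw [hu]
      exact mem_univ _
    exact (hm _).1 this
  have hni : ¬ IsInterval π Y' := by
    intro hI
    rcases h Y' hI with h1 | h1
    · omega
    · exact hnu h1
  unfold IsInterval at hni
  rw [not_and_or] at hni
  rcases hni with h1 | h1
  · push Not at h1
    obtain ⟨a, ha, c, hcc, b, hab, hbc, hb⟩ := h1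
    refine ⟨(b : ℕ), by simp, fun hbY => hb ((hm b).2 hbY), true, (a : ℕ), (hm a).1 ha, (c : ℕ),
      (hm c).1 hcc, ?_, ?_⟩
    · rw [zp_true, zp_true]
      have : a < b := lt_of_le_of_ne hab (fun e => hb (e ▸ ha))
      exact_mod_cast this
    · rw [zp_true, zp_true]
      have : b < c := lt_of_le_of_ne hbc (fun e => hb (e ▸ hcc))
      exact_mod_cast this
  · push Not at h1
    obtain ⟨a, ha, c, hcc, b, hab, hbc, hb⟩ := h1
    refine ⟨(b : ℕ), by simp, fun hbY => hb ((hm b).2 hbY), false, (a : ℕ), (hm a).1 ha, (c : ℕ),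
      (hm c).1 hcc, ?_, ?_⟩
    · rw [zp_false π a.2, zp_false π b.2]
      have : π a < π b := lt_of_le_of_ne hab (fun e => hb (π.injective e ▸ ha))
      exact_mod_cast this
    · rw [zp_false π b.2, zp_false π c.2]
      have : π b < π c := lt_of_le_of_ne hbc (fun e => hb (π.injective e ▸ hcc))
      exact_mod_cast this

lemma zp_occ {n k : ℕ} (π : Equiv.Perm (Fin n)) (σ : Equiv.Perm (Fin k))
    (h : Occ (zp π) (range n) σ) : Contained σ π := by
  obtain ⟨f, hf, h1, h2⟩ := h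
  have hf' : ∀ i, f i < n := fun i => by simpa using hf i
  refine ⟨fun i => ⟨f i, hf' i⟩, ?_, ?_⟩
  · intro i j hij
    have := (h1 i j).1 hij
    rw [zp_true, zp_true] at this
    have h3 : f i < f j := by exact_mod_cast this
    exact h3
  · intro i j
    rw [h2 i j, zp_false π (hf' i), zp_false π (hf' j)]
    constructor
    · intro h3
      have h4 : (π ⟨f i, hf' i⟩ : ℕ) < π ⟨f j, hf' j⟩ := by exact_mod_cast h3
      exact h4
    · intro h3
      have h4 : (π ⟨f i, hf' i⟩ : ℕ) < π ⟨f j, hf' j⟩ := h3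
      exact_mod_cast h4

lemma occ_pull {z : Conf} {u : ℕ → ℕ} {S T : Finset ℕ} (hu : ∀ i ∈ T, u i ∈ S) {k : ℕ}
    {σ : Equiv.Perm (Fin k)} (h : Occ (pull z u) T σ) : Occ z S σ := by
  obtain ⟨f, hf, h1, h2⟩ := h
  exact ⟨fun i => u (f i), fun i => hu _ (hf i), h1, h2⟩

lemma finite_lt (M : ℕ) : {p : Σ n : ℕ, Equiv.Perm (Fin n) | p.1 < M}.Finite := by
  apply (Set.finite_range (fun q : Σ n : Fin M, Equiv.Perm (Fin n) =>
    (⟨(q.1 : ℕ), q.2⟩ : Σ n : ℕ, Equiv.Perm (Fin n)))).subset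
  rintro ⟨n, π⟩ hn
  exact ⟨⟨⟨n, hn⟩, π⟩, rfl⟩

theorem t_MAIN (h1 : S_STR) (h2 : S_PINS) (h3 : S_TOPIN) (h4 : S_PA) (h5 : S_W1) (h6 : S_W2)
    (h7 : S_SYM) : S_MAIN := by
  rintro C hher hinf ⟨B, hB⟩
  obtain ⟨b, hb⟩ : ∃ b : ℕ, B ≤ b := ⟨B.toNat, Int.self_le_toNat B⟩
  have hB' : Bdd C (b : ℤ) := fun n π hn hC => (hB n π hn hC).trans hb
  have hP := h2 C b hher hB'
  push Not at hP
  obtain ⟨k, hk⟩ := hP
  set t := max 2 (b + 1) with ht
  have ht2 : 2 ≤ t := le_max_left _ _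
  have htb : b + 1 ≤ t := le_max_right _ _
  obtain ⟨M, hM⟩ := h1 k t
  obtain ⟨⟨n, π⟩, ⟨hCπ, hsim⟩, hn⟩ : ∃ p ∈ {p : Σ n : ℕ, Equiv.Perm (Fin n) |
      C p.1 p.2 ∧ IsSimple p.2}, M ≤ p.1 := by
    by_contra hc
    push Not at hc
    exact hinf ((finite_lt M).subset (fun p hp => hc p hp))
  simp only at hCπ hsim hn
  have hG := zp_gp π
  have fin : ∀ (m : ℕ) (σ' : Equiv.Perm (Fin m)) (a s1 s2 : Bool), 1 ≤ m →
      Occ (symm a s1 s2 (zp π)) (range n) σ' → (t : ℤ) ≤ |mu m σ'| → False := by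
    intro m σ' a s1 s2 hm ho hmu
    obtain ⟨σ, hσ, hσ2⟩ := h7 a s1 s2 (zp π) (range n) m σ' hG ho
    have hC := hher m n σ π (zp_occ π σ hσ) hCπ
    have h8 := hB' m σ hm hC
    rw [hσ2] at h8
    have h9 : ((b : ℤ) + 1) ≤ t := by exact_mod_cast htb
    linarith
  rcases hM (zp π) (range n) hG (zp_simple π hsim) (by simpa using hn) with h | h | h | h
  · obtain ⟨z', Q, e, hpin, ho⟩ := h3 _ _ _ hG h
    exact hk z' Q e hpin (fun m σ hσ => hher m n σ π (zp_occ π σ (ho m σ hσ)) hCπ)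
  · obtain ⟨a, s1, s2, u, hu, hpa⟩ := h
    obtain ⟨σ', ho, hmu⟩ := h4 _ t ht2 hpa
    refine fin _ σ' a s1 s2 (by omega) (occ_pull (fun i hi => hu i ?_) ho) hmu
    rw [mem_Icc] at hi
    omega
  · obtain ⟨a, s1, s2, u, hu, hpa⟩ := h
    obtain ⟨σ', ho, hmu⟩ := h5 _ t ht2 hpa
    refine fin _ σ' a s1 s2 (by omega) (occ_pull (fun i hi => hu i ?_) ho) hmu
    rw [mem_Icc] at hi
    omega
  · obtain ⟨a, s1, s2, u, hu, hpa⟩ := h
    obtain ⟨σ', ho, hmu⟩ := h6 _ t ht2 hpa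
    refine fin _ σ' a s1 s2 (by omega) (occ_pull (fun i hi => hu i ?_) ho) hmu
    rw [mem_Icc] at hi
    omega

end Pool.Agent.W585.MF

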